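import Pool.Agent.H26.SymGenCount

/-!
# MP_864522_al: two subgroups generating an infinite symmetric group

Negative answer to Q1, for every countably infinite set and with countable sets of additional
permutations in place of finite ones.
-/

namespace Pool.Agent.Results.MP_864522_al.NoCountableHelp

/-- Let `Ω` be a countably infinite set. There are subgroups `G`, `H` of the group `Sym(Ω)` of all
permutations of `Ω` such that `G ∪ H` generates `Sym(Ω)`, but for no countable (in particular, for
no finite) set `F` of permutations does `G ∪ F` or `H ∪ F` generate `Sym(Ω)`. -/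
theorem result (Ω : Type*) [Countable Ω] [Infinite Ω] :
    ∃ G H : Subgroup (Equiv.Perm Ω),
      Subgroup.closure ((G : Set (Equiv.Perm Ω)) ∪ (H : Set (Equiv.Perm Ω))) = ⊤ ∧
      ∀ F : Set (Equiv.Perm Ω), F.Countable →
        Subgroup.closure ((G : Set (Equiv.Perm Ω)) ∪ F) ≠ ⊤ ∧
          Subgroup.closure ((H : Set (Equiv.Perm Ω)) ∪ F) ≠ ⊤ :=
  Pool.Agent.H26.SymGen.main_count Ω

end Pool.Agent.Results.MP_864522_al.NoCountableHelp
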